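import Pool.Agent.H31.Q.Defs
import Pool.Agent.H26.TR.Full

set_option autoImplicit false

/-!
Words below a covered state split (MP_a46c6f_co), from the sides of the words of the code.
-/

namespace Pool.Agent.H50.Q

open Finset Pool.Agent.H98.Code Pool.Agent.H26.TR Pool.Agent.H31.Q

variable {V : Type} [Fintype V] [DecidableEq V]
variable {L : Submodule (ZMod 2) (V → K)} {S : (V → K) → Finset V → Prop}

theorem kf_zero_left (a : K) : kf 0 a = 0 := by
  revert a; decide

theorem kf_zero_right (a : K) : kf a 0 = 0 := by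
  revert a; decide

theorem kf_self (a : K) : kf a a = 0 := by
  revert a; decide

theorem kf_z_letter (a : K) (h : a.1 = 1) : kf z a = 1 := by
  revert a; decide

/-- a side which avoids `e` -/
theorem exists_side (hS : Sides L S) (e : V) {u : V → K} (hu : u ∈ L) :
    ∃ Y, S u Y ∧ e ∉ Y := by
  obtain ⟨Y, hY⟩ := hS.ex u hu
  by_cases he : e ∈ Y
  · obtain ⟨Y', hY', h⟩ := hS.compl u Y hY
    exact ⟨Y', hY', fun h1 => ((h e).1 h1).2 he⟩
  · exact ⟨Y, hY, he⟩

/-- `z`-free words of `L` which vanish at most at one place split -/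
theorem wc_off (hS : Sides L S) {u : V → K} (hu : u ∈ L) (h0 : u ≠ 0) (hz : ZFree u)
    (he : ∃ e, ∀ v, v ≠ e → u v ≠ 0) : ∃ g, Splits L u g := by
  obtain ⟨e, he⟩ := he
  obtain ⟨Y, hY, heY⟩ := exists_side hS e hu
  have hY0 : Y = ∅ := by
    refine Finset.eq_empty_of_forall_notMem fun v hv => ?_
    have hve : v ≠ e := fun h => heY (h ▸ hv)
    exact he v hve ((hS.mem u Y hY).2 v hv)
  rw [hY0] at hY
  exact hS.wc u hY hz h0

theorem cov_aux (hiso : ∀ u ∈ L, ∀ w ∈ L, form u w = 0) (hS : Sides L S) (e : V) (D : V → K)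
    (hl : ∀ v, v ≠ e → (D v).1 = 1) (hf : ∀ v, v ≠ e → ∃ u, KD L D e u ∧ u v ≠ 0) :
    ∀ (n : ℕ) (u : V → K) (Y : Finset V), Y.card = n → S u Y → e ∉ Y → KD L D e u → u ≠ 0 →
      u e = 0 → ∃ g, Splits L u g := by
  intro n
  induction n using Nat.strong_induction_on with
  | _ n ih =>
    intro u Y hn hY heY hu h0 hue
    have huD : ∀ v, u v ≠ 0 → u v = D v ∧ v ≠ e := by
      intro v hv
      have hve : v ≠ e := fun h => hv (h ▸ hue)
      rcases hu.2.1 v hve with h1 | h1
      · exact absurd h1 hv
      · exact ⟨h1, hve⟩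
    by_cases hYe : Y = ∅
    · rw [hYe] at hY
      refine hS.wc u hY ?_ h0
      intro v hv
      have hv0 : u v ≠ 0 := by
        rw [hv]; decide
      obtain ⟨h1, h2⟩ := huD v hv0
      have := hl v h2
      rw [← h1, hv] at this
      exact absurd this (by decide)
    · obtain ⟨v, hv⟩ := Finset.nonempty_iff_ne_empty.2 hYe
      have hve : v ≠ e := fun h => heY (h ▸ hv)
      obtain ⟨c, hc, hcv⟩ := hf v hve
      have hcu : ∀ w, u w ≠ 0 → c w = 0 ∨ c w = u w := by
        intro w hw
        obtain ⟨h1, h2⟩ := huD w hw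
        rw [h1]
        exact hc.2.1 w h2
      obtain ⟨k', hk', e1, e2, e3, ⟨Y', hYY, hSk⟩, -⟩ := hS.part u Y hY c hc.1 hcu
      have hke : k' e = 0 := e2 e hue heY
      have hkD : ∀ w, w ≠ e → k' w = 0 ∨ k' w = D w := by
        intro w hw
        by_cases hwY : w ∈ Y
        · rw [e1 w hwY]
          exact hc.2.1 w hw
        · by_cases huw : u w = 0
          · exact Or.inl (e2 w huw hwY)
          · rw [← (huD w huw).1]
            exact e3 w huw
      have hkKD : KD L D e k' := ⟨hk', hkD, Or.inl hke⟩
      have hkv : k' v ≠ 0 := by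
        rw [e1 v hv]
        exact hcv
      have hk0 : k' ≠ 0 := fun h => hkv (by rw [h]; rfl)
      have hvY' : v ∉ Y' := fun h => hkv ((hS.mem k' Y' hSk).2 v h)
      have hlt : Y'.card < n := by
        rw [← hn]
        exact Finset.card_lt_card ⟨hYY, fun h => hvY' (h hv)⟩
      obtain ⟨g, c₁, hc₁, c₂, hc₂, hsum, hg1, hg2, hd⟩ :=
        ih Y'.card hlt k' Y' rfl hSk (fun h => heY (hYY h)) hkKD hk0 hke
      have hval : ∀ w, w ≠ g → c₁ w = 0 ∨ c₁ w = k' w := by
        intro w hw
        have hs : k' w = c₁ w + c₂ w := by rw [← hsum]; rfl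
        rcases hd w hw with h1 | h1
        · exact Or.inl h1
        · rw [h1, add_zero] at hs
          exact Or.inr hs.symm
      have hge : g = e := by
        by_contra hge
        obtain ⟨d, hd', hdg⟩ := hf g hge
        have hdD : d g = D g := by
          rcases hd'.2.1 g hge with h1 | h1
          · exact absurd h1 hdg
          · exact h1
        have h1 := hiso c₁ hc₁ d hd'.1
        have h2 : form c₁ d = kf (c₁ g) (d g) := by
          unfold form
          refine Finset.sum_eq_single g ?_ (fun h => absurd (Finset.mem_univ g) h)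
          intro w _ hw
          rcases hval w hw with h3 | h3
          · rw [h3, kf_zero_left]
          · by_cases hwe : w = e
            · rw [h3, hwe, hke, kf_zero_left]
            · rcases hkD w hwe with h4 | h4 <;> rcases hd'.2.1 w hwe with h5 | h5 <;>
                rw [h3, h4, h5]
              · exact kf_zero_left _
              · exact kf_zero_left _
              · exact kf_zero_right _
              · exact kf_self _
        rw [h2, hg1, hdD, kf_z_letter _ (hl g hge)] at h1
        exact absurd h1 (by decide)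
      subst hge
      have hcu1 : ∀ w, u w ≠ 0 → c₁ w = 0 ∨ c₁ w = u w := by
        intro w hw
        obtain ⟨-, h2⟩ := huD w hw
        rcases hval w h2 with h3 | h3
        · exact Or.inl h3
        · rw [h3]
          exact e3 w hw
      obtain ⟨q, hq, f1, f2, f3, -, -⟩ := hS.part u Y hY c₁ hc₁ hcu1
      have hdv : ∀ w, w ≠ g → (c₁ + q) w = 0 ∨ (c₁ + q) w = u w := by
        intro w hw
        rw [Pi.add_apply]
        by_cases hwY : w ∈ Y
        · rw [f1 w hwY, K_add_self]
          exact Or.inl rfl
        · by_cases huw : u w = 0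
          · rw [f2 w huw hwY, add_zero]
            left
            rcases hval w hw with h3 | h3
            · exact h3
            · rw [h3]
              exact e2 w huw hwY
          · rcases hcu1 w huw with h3 | h3 <;> rcases f3 w huw with h4 | h4 <;> rw [h3, h4]
            · exact Or.inl (add_zero _)
            · exact Or.inr (zero_add _)
            · exact Or.inr (add_zero _)
            · exact Or.inl (K_add_self _)
      have hqe : q g = 0 := f2 g hue heY
      refine ⟨g, c₁ + q, L.add_mem hc₁ hq, u + (c₁ + q), L.add_mem hu.1 (L.add_mem hc₁ hq), ?_, ?_,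
        ?_, ?_⟩
      · funext w
        simp only [Pi.add_apply]
        rw [add_comm (u w), ← add_assoc, K_add_self, zero_add]
      · rw [Pi.add_apply, hg1, hqe, add_zero]
      · simp only [Pi.add_apply]
        rw [hg1, hqe, hue, add_zero, zero_add]
      · intro w hw
        rcases hdv w hw with h3 | h3
        · exact Or.inl h3
        · right
          rw [Pi.add_apply, h3, K_add_self]

/-- **(K)**: the words below a covered state which vanish at `e` split -/
theorem splitFull_of_sides (hiso : ∀ u ∈ L, ∀ w ∈ L, form u w = 0) (hS : Sides L S) :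
    ∀ (e : V) (D : V → K), (∀ v, v ≠ e → (D v).1 = 1) →
      (∀ v, v ≠ e → ∃ u, KD L D e u ∧ u v ≠ 0) →
      ∀ u, KD L D e u → u ≠ 0 → u e = 0 → ∃ g, Splits L u g := by
  intro e D hl hf u hu h0 hue
  obtain ⟨Y, hY, heY⟩ := exists_side hS e hu.1
  exact cov_aux hiso hS e D hl hf Y.card u Y rfl hY heY hu h0 hue

end Pool.Agent.H50.Q
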